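import Pool.Agent.Lib.MP_e3aa0a_gt.FVL.Fin72c
import Pool.Agent.Lib.MP_e3aa0a_gt.FVL.Tow10
import Pool.Agent.Lib.MP_e3aa0a_gt.FVL.Spx65
import Pool.Agent.Lib.MP_e3aa0a_gt.FLG.S66
import Pool.Agent.Lib.MP_e3aa0a_gt.FLG.G83

/-!
The integral filling volume of a pseudo-Anosov class of a closed surface of genus `k + 1` is
comparable to the logarithm of its stretching factor.
-/

set_option autoImplicit false

open Filter Topology
open Pool.Agent.Lib.FVol Pool.Agent.Lib.MP_e3aa0a_gt.FVL Pool.Agent.Lib.MP_e3aa0a_gt.FLG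

namespace Pool.Agent.Results.MP_e3aa0a_gt.PseudoAnosovBound

theorem result (k : ℕ) (hk : 1 ≤ k) :
    ∃ C : ℝ, 0 < C ∧ ∀ φ : SG (k + 1) ≃* SG (k + 1),
      (∃ b : C3 (SG (k + 1)), bd (SG (k + 1)) b = push φ.toMonoidHom (zS k) - zS k) →
      ∃ F : ℝ, Tendsto (fun n : ℕ =>
          (fill (push (hpow φ.toMonoidHom n) (zS k) - zS k) : ℝ) / n) atTop (𝓝 F) ∧
        ∀ μ : ℝ, PA φ μ → Real.log μ ≤ C * F ∧ F ≤ C * Real.log μ :=
  fin72c (bndA10 hk (spec10_65 hk)) (surf_fill66 free_fill k)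

end Pool.Agent.Results.MP_e3aa0a_gt.PseudoAnosovBound
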