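import Pool.Agent.Lib.MP_e3aa0a_gt.FVL.Low29

/-!
Both bounds `(2/3) log₂ μ ≤ FV ≤ C_N log₂ μ` for the maps of closed surfaces a power of which is
coded by a closed path of (generalised) Rauzy-Veech induction with at most `N` letters. Every
pseudo-Anosov map of the closed surface of genus `g` has such a power, with `N = 6 g - 4`.
-/

set_option autoImplicit false

open Filter Topology
open Pool.Agent.Lib.FVol Pool.Agent.Lib.MP_e3aa0a_gt.FVL

namespace Pool.Agent.Results.MP_e3aa0a_gt.TwoSidedBound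

theorem result (G : Type) [Group G] (z : C2 G) (φ : G →* G)
    (hz : ∃ b : C3 G, bd G b = push φ z - z) (N p : ℕ) (hp : 1 ≤ p) (μ : ℝ) (hμ : 1 < μ)
    (h : CodedR N z (hpow φ p) (μ ^ p)) :
    ∃ F : ℝ, Tendsto (fun k : ℕ => (fill (push (hpow φ k) z - z) : ℝ) / k) atTop (𝓝 F) ∧
      2 / 3 * (Real.log μ / Real.log 2) ≤ F ∧
      F ≤ (56 * (N : ℝ) + 73) * ((N : ℝ) + 2) * (N : ℝ) * (Real.log μ / Real.log 2) :=
  both29 stLow29 hμ hp hz h

end Pool.Agent.Results.MP_e3aa0a_gt.TwoSidedBound
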